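import Pool.Agent.Q122.QB.Stm

set_option autoImplicit false

namespace Q102.QB

open Q122.Gon Q122.QB

variable {V E : Type}

theorem subPt_zero (G : MGraph V E) (k : ℕ) (e : E) : G.subPt k e 0 = Sum.inl (G.src e) := by
  simp [MGraph.subPt]

theorem subPt_last (G : MGraph V E) {k : ℕ} (hk : 1 ≤ k) (e : E) :
    G.subPt k e k = Sum.inl (G.tgt e) := by
  have h2 : k ≠ 0 := by omega
  simp [MGraph.subPt, h2]

theorem subPt_inr (G : MGraph V E) {k : ℕ} (e : E) {j : ℕ} (h0 : 0 < j) (hj : j < k) :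
    G.subPt k e j = Sum.inr (e, ⟨j - 1, by omega⟩) := by
  have h1 : j ≠ 0 := by omega
  have h2 : j - 1 < k - 1 := by omega
  simp [MGraph.subPt, h1, h2]

theorem inr_eq (G : MGraph V E) {k : ℕ} (q : E × Fin (k - 1)) :
    (Sum.inr q : V ⊕ E × Fin (k - 1)) = G.subPt k q.1 (q.2.val + 1) := by
  have h := q.2.2
  rw [subPt_inr G q.1 (by omega) (by omega)]
  simp

/-- the interpolated script -/
def ipFun (G : MGraph V E) (k : ℕ) (f : V → ℤ) : V ⊕ E × Fin (k - 1) → ℤ :=
  Sum.elim (fun v => k * f v)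
    (fun q => k * f (G.src q.1) + (q.2.val + 1) * (f (G.tgt q.1) - f (G.src q.1)))

theorem ipFun_subPt (G : MGraph V E) {k : ℕ} (hk : 1 ≤ k) (f : V → ℤ) (e : E) (j : ℕ)
    (hj : j ≤ k) : ipFun G k f (G.subPt k e j) =
      k * f (G.src e) + j * (f (G.tgt e) - f (G.src e)) := by
  rcases Nat.eq_zero_or_pos j with h | h
  · subst h
    rw [subPt_zero]
    simp [ipFun]
  · rcases Nat.lt_or_ge j k with h1 | h1
    · rw [subPt_inr G e h h1]
      simp only [ipFun, Sum.elim_inr]
      have : ((j - 1 : ℕ) : ℤ) + 1 = j := by omega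
      rw [this]
    · have : j = k := by omega
      subst this
      rw [subPt_last G hk]
      simp only [ipFun, Sum.elim_inl]
      ring

theorem tele0 (δ : ℕ → ℤ) (k : ℕ) : ∑ m : Fin k, (δ m - δ (m + 1)) = δ 0 - δ k := by
  rw [Fin.sum_univ_eq_sum_range (fun m => δ m - δ (m + 1)) k, Finset.sum_range_sub']

variable [Fintype V] [Fintype E] [DecidableEq V] [DecidableEq E]

theorem ip_fire (G : MGraph V E) {k : ℕ} (hk : 1 ≤ k) (f : V → ℤ) (w : V ⊕ E × Fin (k - 1)) :
    (G.subdiv k).fire (ipFun G k f) w =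
      ∑ e, ((if Sum.inl (G.src e) = w then (1 : ℤ) else 0) -
        (if Sum.inl (G.tgt e) = w then 1 else 0)) * (f (G.tgt e) - f (G.src e)) := by
  rw [MGraph.fire_eq, Fintype.sum_prod_type]
  refine Finset.sum_congr rfl fun e _ => ?_
  have h1 : ∀ m : Fin k,
      ((if (G.subdiv k).src (e, m) = w then (1 : ℤ) else 0) -
        (if (G.subdiv k).tgt (e, m) = w then 1 else 0)) *
      (ipFun G k f ((G.subdiv k).tgt (e, m)) - ipFun G k f ((G.subdiv k).src (e, m))) =
      ((if G.subPt k e m.val = w then (1 : ℤ) else 0) -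
        (if G.subPt k e (m.val + 1) = w then 1 else 0)) * (f (G.tgt e) - f (G.src e)) := by
    intro m
    change ((if G.subPt k e m.val = w then (1 : ℤ) else 0) -
        (if G.subPt k e (m.val + 1) = w then 1 else 0)) *
      (ipFun G k f (G.subPt k e (m.val + 1)) - ipFun G k f (G.subPt k e m.val)) = _
    rw [ipFun_subPt G hk f e _ (by omega), ipFun_subPt G hk f e _ (by omega)]
    push_cast
    ring
  rw [Finset.sum_congr rfl fun m _ => h1 m, ← Finset.sum_mul,
    tele0 (fun m => if G.subPt k e m = w then (1 : ℤ) else 0) k, subPt_zero, subPt_last G hk]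

end Q102.QB

namespace Q102.QB

open Q122.Gon Q122.QB

theorem t_IP : Q122.QB.S_IP := by
  intro V E _ _ _ _ G k hk f
  refine ⟨ipFun G k f, fun v => ?_, fun q => ?_⟩
  · rw [ip_fire G hk, MGraph.fire_eq]
    refine Finset.sum_congr rfl fun e _ => ?_
    simp only [Sum.inl.injEq]
  · rw [ip_fire G hk]
    refine Finset.sum_eq_zero fun e _ => ?_
    simp

end Q102.QB
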