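import Pool.Agent.Q102.QB.IP

set_option autoImplicit false

namespace Q102.QB

open Q122.Gon Q122.QB

section gen

variable {V E : Type} [Fintype V] [Fintype E] [DecidableEq V]

omit [Fintype V] in
theorem fire_max_left (H : MGraph V E) (f g : V → ℤ) (x : V) (h : g x ≤ f x) :
    H.fire f x ≤ H.fire (fun w => max (f w) (g w)) x := by
  unfold MGraph.fire
  refine Finset.sum_le_sum fun e _ => ?_
  have h1 : max (f x) (g x) = f x := max_eq_left h
  have h2 := le_max_left (f (H.tgt e)) (g (H.tgt e))
  have h3 := le_max_left (f (H.src e)) (g (H.src e))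
  simp only [h1]
  split_ifs <;> linarith

omit [Fintype V] in
theorem feas_max (H : MGraph V E) (D f g : V → ℤ) (hf : ∀ w, 0 ≤ D w + H.fire f w)
    (hg : ∀ w, 0 ≤ D w + H.fire g w) (w : V) :
    0 ≤ D w + H.fire (fun w => max (f w) (g w)) w := by
  rcases le_total (g w) (f w) with h | h
  · have := fire_max_left H f g w h
    have := hf w
    linarith
  · have h1 := fire_max_left H g f w h
    have h2 := hg w
    have h3 : (fun w => max (f w) (g w)) = fun w => max (g w) (f w) := by
      funext w
      exact max_comm _ _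
    rw [h3]
    linarith

omit [Fintype V] in
theorem fire_const (H : MGraph V E) (f : V → ℤ) (c : ℤ) (w : V) :
    H.fire (fun w => f w + c) w = H.fire f w := by
  unfold MGraph.fire
  refine Finset.sum_congr rfl fun e _ => ?_
  split_ifs <;> ring

theorem edge_bound (H : MGraph V E) (D : V → ℤ) (hD : ∀ v, 0 ≤ D v) (g : V → ℤ)
    (hg : ∀ w, 0 ≤ D w + H.fire g w) (u v : V) (huv : H.Adj u v) :
    g u - g v ≤ ∑ w, D w := by
  rcases le_or_gt (g u) (g v) with h0 | h0
  · have := Finset.sum_nonneg (s := Finset.univ) fun w _ => hD w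
    linarith
  · have h1 := H.green (fun w => if g u ≤ g w then 1 else 0) g
    have h2 : - ∑ w, D w ≤ ∑ w, (if g u ≤ g w then (1 : ℤ) else 0) * H.fire g w := by
      rw [← Finset.sum_neg_distrib]
      refine Finset.sum_le_sum fun w _ => ?_
      have h3 := hD w
      have h4 := hg w
      split_ifs <;> linarith
    have h6 : ∀ e, ((if g u ≤ g (H.src e) then (1 : ℤ) else 0) -
        (if g u ≤ g (H.tgt e) then 1 else 0)) * (g (H.tgt e) - g (H.src e)) ≤ 0 := by
      intro e
      split_ifs with h7 h8 h8 <;> simp <;> linarith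
    obtain ⟨e0, he0⟩ := huv
    have h7 : ∑ e, ((if g u ≤ g (H.src e) then (1 : ℤ) else 0) -
        (if g u ≤ g (H.tgt e) then 1 else 0)) * (g (H.tgt e) - g (H.src e)) ≤
        ((if g u ≤ g (H.src e0) then (1 : ℤ) else 0) -
        (if g u ≤ g (H.tgt e0) then 1 else 0)) * (g (H.tgt e0) - g (H.src e0)) := by
      have := Finset.single_le_sum (s := Finset.univ) (f := fun e =>
        - (((if g u ≤ g (H.src e) then (1 : ℤ) else 0) -
        (if g u ≤ g (H.tgt e) then 1 else 0)) * (g (H.tgt e) - g (H.src e))))
        (fun e _ => by have := h6 e; linarith) (Finset.mem_univ e0)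
      rw [Finset.sum_neg_distrib] at this
      linarith
    have h8 : ((if g u ≤ g (H.src e0) then (1 : ℤ) else 0) -
        (if g u ≤ g (H.tgt e0) then 1 else 0)) * (g (H.tgt e0) - g (H.src e0)) = - (g u - g v) := by
      have h9 : ¬ g u ≤ g v := not_le.2 h0
      rcases he0 with ⟨ha, hb⟩ | ⟨ha, hb⟩
      · rw [ha, hb]; simp [h9]
      · rw [ha, hb]; simp [h9]
    rw [h1] at h2
    linarith

omit [Fintype V] [Fintype E] [DecidableEq V] in
theorem adj_symm (H : MGraph V E) {u v : V} (h : H.Adj u v) : H.Adj v u := by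
  obtain ⟨e, he⟩ := h
  exact ⟨e, he.symm⟩

theorem path_bound (H : MGraph V E) (D : V → ℤ) (hD : ∀ v, 0 ≤ D v) (p x : V)
    (hpx : Relation.ReflTransGen H.Adj p x) :
    ∃ C : ℤ, ∀ g : V → ℤ, (∀ w, 0 ≤ D w + H.fire g w) → g x - g p ≤ C := by
  induction hpx with
  | refl => exact ⟨0, fun g _ => by simp⟩
  | tail _ hbc ih =>
    obtain ⟨C, hC⟩ := ih
    refine ⟨(∑ w, D w) + C, fun g hg => ?_⟩
    have h1 := hC g hg
    have h2 := edge_bound H D hD g hg _ _ (adj_symm H hbc)
    linarith

theorem exists_reduced (H : MGraph V E) (D : V → ℤ) (hD : ∀ v, 0 ≤ D v) (p : V)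
    (hconn : ∀ x, Relation.ReflTransGen H.Adj p x) :
    ∃ g : V → ℤ, (∀ w, 0 ≤ D w + H.fire g w) ∧
      ∀ h : V → ℤ, (∀ w, 0 ≤ D w + H.fire g w + H.fire h w) → ∀ x, h x ≤ h p := by
  choose C hC using fun x => path_bound H D hD p x (hconn x)
  obtain ⟨ub, ⟨g, hg, hgub⟩, hmax⟩ := Int.exists_greatest_of_bdd
    (P := fun z => ∃ g : V → ℤ, (∀ w, 0 ≤ D w + H.fire g w) ∧ ∑ x : V, (g x - g p) = z)
    ⟨∑ x : V, C x, by
      rintro z ⟨g, hg, rfl⟩
      exact Finset.sum_le_sum fun x _ => hC x g hg⟩
    ⟨∑ _x : V, (0 : ℤ), fun _ => 0, fun w => by simpa [MGraph.fire] using hD w, by simp⟩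
  refine ⟨g, hg, fun h hh x => ?_⟩
  have h1 : ∀ w, 0 ≤ D w + H.fire (fun w => (g w + h w) + (- h p)) w := by
    intro w
    rw [fire_const, MGraph.fire_add]
    have := hh w
    linarith
  have h2 := feas_max H D g _ hg h1
  have h3 := hmax _ ⟨_, h2, rfl⟩
  rw [← hgub] at h3
  have h4 : max (g p) (g p + h p + - h p) = g p := by
    rw [max_eq_left]; linarith
  simp only [h4] at h3
  have h5 : ∀ y ∈ Finset.univ, g y - g p ≤ max (g y) (g y + h y + - h p) - g p := by
    intro y _
    have := le_max_left (g y) (g y + h y + - h p)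
    linarith
  have h6 := le_antisymm h3 (Finset.sum_le_sum h5)
  have h7 := (Finset.sum_eq_sum_iff_of_le h5).1 h6.symm x (Finset.mem_univ x)
  have h8 := le_max_right (g x) (g x + h x + - h p)
  linarith

omit [Fintype V] in
theorem max_fire (H : MGraph V E) (h : V → ℤ) (x0 : V) (hM : ∀ x, h x ≤ h x0) :
    H.fire h x0 ≤ 0 := by
  unfold MGraph.fire
  refine Finset.sum_nonpos fun e _ => ?_
  have h1 := hM (H.src e)
  have h2 := hM (H.tgt e)
  split_ifs <;> linarith

omit [Fintype V] in
theorem max_spread (H : MGraph V E) (h : V → ℤ) (x0 y : V) (hM : ∀ x, h x ≤ h x0)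
    (hf : 0 ≤ H.fire h x0) (hadj : H.Adj x0 y) : h y = h x0 := by
  have h0 : H.fire h x0 = 0 := le_antisymm (max_fire H h x0 hM) hf
  unfold MGraph.fire at h0
  rw [Finset.sum_eq_zero_iff_of_nonpos] at h0
  · obtain ⟨e, he⟩ := hadj
    have h3 := h0 e (Finset.mem_univ e)
    have h1 := hM (H.src e)
    have h2 := hM (H.tgt e)
    rcases he with ⟨ha, hb⟩ | ⟨ha, hb⟩
    · rw [if_pos ha, hb] at h3
      rw [hb] at h2
      split_ifs at h3 <;> linarith
    · rw [if_pos hb, ha] at h3
      rw [ha] at h1
      split_ifs at h3 <;> linarith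
  · intro e _
    have h1 := hM (H.src e)
    have h2 := hM (H.tgt e)
    split_ifs <;> linarith

end gen

section sub

variable {V E : Type}

theorem subPt_adj (G : MGraph V E) {k : ℕ} (e : E) (j : ℕ) (hj : j < k) :
    (G.subdiv k).Adj (G.subPt k e j) (G.subPt k e (j + 1)) :=
  ⟨(e, ⟨j, hj⟩), Or.inl ⟨rfl, rfl⟩⟩

theorem reach_subPt (G : MGraph V E) {k : ℕ} (e : E) (j : ℕ) (hj : j ≤ k) :
    Relation.ReflTransGen (G.subdiv k).Adj (G.subPt k e 0) (G.subPt k e j) := by
  induction j with
  | zero => exact Relation.ReflTransGen.refl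
  | succ n ih => exact (ih (by omega)).tail (subPt_adj G e n (by omega))

theorem reach_symm (H : MGraph V E) {x y : V} (h : Relation.ReflTransGen H.Adj x y) :
    Relation.ReflTransGen H.Adj y x := by
  induction h with
  | refl => exact Relation.ReflTransGen.refl
  | tail _ hbc ih => exact Relation.ReflTransGen.head (adj_symm H hbc) ih

theorem reach_inl (G : MGraph V E) {k : ℕ} (hk : 1 ≤ k) {u v : V}
    (h : Relation.ReflTransGen G.Adj u v) :
    Relation.ReflTransGen (G.subdiv k).Adj (Sum.inl u) (Sum.inl v) := by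
  induction h with
  | refl => exact Relation.ReflTransGen.refl
  | tail _ hbc ih =>
    refine ih.trans ?_
    obtain ⟨e, he⟩ := hbc
    have h1 := reach_subPt G (k := k) e k le_rfl
    rw [subPt_zero, subPt_last G hk] at h1
    rcases he with ⟨ha, hb⟩ | ⟨ha, hb⟩
    · rw [ha, hb] at h1; exact h1
    · rw [ha, hb] at h1; exact reach_symm _ h1

theorem reach_all (G : MGraph V E) {k : ℕ} (hk : 1 ≤ k) (hG : G.Connected)
    (x y : V ⊕ E × Fin (k - 1)) : Relation.ReflTransGen (G.subdiv k).Adj x y := by
  obtain ⟨⟨v0⟩, hG⟩ := hG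
  have h1 : ∀ x : V ⊕ E × Fin (k - 1), Relation.ReflTransGen (G.subdiv k).Adj (Sum.inl v0) x := by
    intro x
    rcases x with v | q
    · exact reach_inl G hk (hG v0 v)
    · rw [inr_eq G q]
      have h2 := reach_inl G hk (hG v0 (G.src q.1))
      have h3 := reach_subPt G (k := k) q.1 (q.2.val + 1) (by have := q.2.2; omega)
      rw [subPt_zero] at h3
      exact h2.trans h3
  exact (reach_symm _ (h1 x)).trans (h1 y)

theorem subPt_inj (G : MGraph V E) {k : ℕ} (hk : 1 ≤ k) (e : E) {i j : ℕ} (hij : i < j)
    (hj : j ≤ k) : G.subPt k e i ≠ G.subPt k e j := by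
  intro h
  rcases Nat.eq_zero_or_pos i with hi | hi
  · subst hi
    rw [subPt_zero] at h
    rcases Nat.lt_or_ge j k with h1 | h1
    · rw [subPt_inr G e hij h1] at h
      cases h
    · have : j = k := by omega
      subst this
      rw [subPt_last G hk] at h
      exact G.loopless e (Sum.inl.inj h)
  · rw [subPt_inr G e hi (by omega)] at h
    rcases Nat.lt_or_ge j k with h1 | h1
    · rw [subPt_inr G e (by omega) h1] at h
      simp only [Sum.inr.injEq, Prod.mk.injEq, Fin.mk.injEq, true_and] at h
      omega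
    · have : j = k := by omega
      subst this
      rw [subPt_last G hk] at h
      cases h

end sub

theorem t_RD : Q122.QB.S_RD := by
  intro V E _ _ _ _ G k hG hk D hv p
  obtain ⟨⟨v0⟩, hG'⟩ := id hG
  obtain ⟨g0, hg0, -⟩ := hv v0
  set H := G.subdiv k with hH
  obtain ⟨g1, hg1, hred⟩ := exists_reduced H (fun w => D w + H.fire g0 w) hg0 p
    (fun x => reach_all G hk hG p x)
  -- the reduced divisor
  set E' : V ⊕ E × Fin (k - 1) → ℤ := fun w => D w + H.fire g0 w + H.fire g1 w with hE'
  have hE'0 : ∀ w, 0 ≤ E' w := hg1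
  -- it suffices to find `F`
  suffices hF : ∃ F : V ⊕ E × Fin (k - 1) → ℤ, (∀ w, 0 ≤ E' w + H.fire F w) ∧
      1 ≤ E' p + H.fire F p by
    obtain ⟨F, hF1, hF2⟩ := hF
    refine ⟨fun w => (g0 w + g1 w) + F w, fun w => ?_, ?_⟩
    · rw [MGraph.fire_add, MGraph.fire_add]
      have := hF1 w
      simp only [hE'] at this
      linarith
    · rw [MGraph.fire_add, MGraph.fire_add]
      simp only [hE'] at hF2
      linarith
  by_cases hp1 : 1 ≤ E' p
  · exact ⟨fun _ => 0, fun w => by simpa [MGraph.fire] using hE'0 w, by simpa [MGraph.fire] using hp1⟩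
  have hp0 : E' p = 0 := le_antisymm (by linarith [not_le.1 hp1]) (hE'0 p)
  -- for every vertex `v` a script
  have hvv : ∀ v : V, ∃ h : V ⊕ E × Fin (k - 1) → ℤ, (∀ w, 0 ≤ E' w + H.fire h w) ∧
      1 ≤ E' (Sum.inl v) + H.fire h (Sum.inl v) := by
    intro v
    obtain ⟨g, hg, hg2⟩ := hv v
    refine ⟨fun w => (g w - g0 w) - g1 w, fun w => ?_, ?_⟩
    · rw [MGraph.fire_sub, MGraph.fire_sub]
      have := hg w
      simp only [hE']
      linarith
    · rw [MGraph.fire_sub, MGraph.fire_sub]
      simp only [hE']
      linarith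
  rcases p with v | q
  · exact hvv v
  · set e := q.1 with he
    set j := q.2.val + 1 with hj
    have hq2 := q.2.2
    have hpj : (Sum.inr q : V ⊕ E × Fin (k - 1)) = G.subPt k e j := inr_eq G q
    have hjk : j < k := by omega
    have hj0 : 0 < j := by omega
    -- claim A
    have hA : ∃ l, l < j ∧ 1 ≤ E' (G.subPt k e l) := by
      by_contra hcon
      push Not at hcon
      obtain ⟨h, hh, hh1⟩ := hvv (G.src e)
      have hM := hred h hh
      have hd : ∀ i, i ≤ j → h (G.subPt k e (j - i)) = h (Sum.inr q) := by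
        intro i
        induction i with
        | zero => intro _; rw [Nat.sub_zero, hpj]
        | succ n ih =>
          intro hn
          have h1 := ih (by omega)
          have h2 : E' (G.subPt k e (j - n)) = 0 := by
            rcases Nat.eq_zero_or_pos n with h3 | h3
            · subst h3; rw [Nat.sub_zero, ← hpj]; exact hp0
            · have := hcon (j - n) (by omega)
              exact le_antisymm (by linarith) (hE'0 _)
          have h4 := hh (G.subPt k e (j - n))
          rw [h2, zero_add] at h4
          have h5 := subPt_adj G e (j - (n + 1)) (show j - (n + 1) < k by omega)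
          rw [show j - (n + 1) + 1 = j - n by omega] at h5
          rw [← h1]
          exact max_spread H h _ _ (fun x => by rw [h1]; exact hM x) h4 (adj_symm _ h5)
      have h6 := hd j le_rfl
      rw [Nat.sub_self, subPt_zero] at h6
      have h7 := max_fire H h (Sum.inl (G.src e)) (fun x => by rw [h6]; exact hM x)
      have h8 := hcon 0 hj0
      rw [subPt_zero] at h8
      linarith
    have hB : ∃ r, j < r ∧ r ≤ k ∧ 1 ≤ E' (G.subPt k e r) := by
      by_contra hcon
      push Not at hcon
      obtain ⟨h, hh, hh1⟩ := hvv (G.tgt e)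
      have hM := hred h hh
      have hd : ∀ i, j + i ≤ k → h (G.subPt k e (j + i)) = h (Sum.inr q) := by
        intro i
        induction i with
        | zero => intro _; rw [Nat.add_zero, hpj]
        | succ n ih =>
          intro hn
          have h1 := ih (by omega)
          have h2 : E' (G.subPt k e (j + n)) = 0 := by
            rcases Nat.eq_zero_or_pos n with h3 | h3
            · subst h3; rw [Nat.add_zero, ← hpj]; exact hp0
            · have := hcon (j + n) (by omega) (by omega)
              exact le_antisymm (by linarith) (hE'0 _)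
          have h4 := hh (G.subPt k e (j + n))
          rw [h2, zero_add] at h4
          have h5 := subPt_adj G e (j + n) (show j + n < k by omega)
          rw [← h1]
          exact max_spread H h _ _ (fun x => by rw [h1]; exact hM x) h4 h5
      have h6 := hd (k - j) (by omega)
      rw [show j + (k - j) = k by omega, subPt_last G hk] at h6
      have h7 := max_fire H h (Sum.inl (G.tgt e)) (fun x => by rw [h6]; exact hM x)
      have h8 := hcon k hjk le_rfl
      rw [subPt_last G hk] at h8
      linarith
    obtain ⟨l, hlj, hl⟩ := hA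
    obtain ⟨r, hjr, hrk, hr⟩ := hB
    have hlr : G.subPt k e l ≠ G.subPt k e r := subPt_inj G hk e (by omega) hrk
    have hlp : G.subPt k e l ≠ G.subPt k e j := subPt_inj G hk e hlj hjk.le
    have hpr : G.subPt k e j ≠ G.subPt k e r := subPt_inj G hk e hjr hrk
    set s := min (j - l) (r - j) with hs
    have hs1 : s ≤ j - l := min_le_left _ _
    have hs2 : s ≤ r - j := min_le_right _ _
    obtain ⟨F, hF⟩ := slide_ex G k hk (I := Bool) (fun _ => e) (fun b => if b then l else r)
      (fun b => if b then l + s else r - s) (fun _ => 0)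
      (by intro b; cases b <;> simp <;> omega)
      (by intro b; cases b <;> simp <;> omega) (by
        intro e'
        by_cases h : e = e'
        · simp only [Fintype.sum_bool, h, if_true, Bool.false_eq_true, if_false]
          push_cast [Nat.cast_sub (show s ≤ r by omega)]
          ring
        · simp [h])
    simp only [Fintype.sum_bool, if_true, Bool.false_eq_true, if_false] at hF
    refine ⟨F, fun w => ?_, ?_⟩
    · rw [hH, hF]
      have n1 := ind_nonneg (G.subPt k e (l + s)) w
      have n2 := ind_nonneg (G.subPt k e (r - s)) w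
      have n3 : ind (G.subPt k e l) w + ind (G.subPt k e r) w ≤ E' w := by
        by_cases h1 : G.subPt k e l = w
        · have h2 : G.subPt k e r ≠ w := fun h => hlr (h1.trans h.symm)
          rw [ind_ne h2, ← h1, ind_self]; linarith
        · rw [ind_ne h1]
          by_cases h2 : G.subPt k e r = w
          · rw [← h2, ind_self]; linarith
          · rw [ind_ne h2]; have := hE'0 w; linarith
      linarith
    · rw [hH, hF, hpj]
      rw [hpj] at hp0
      rw [hp0, ind_ne hlp, ind_ne hpr.symm]
      have n1 := ind_nonneg (G.subPt k e (l + s)) (G.subPt k e j)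
      have n2 := ind_nonneg (G.subPt k e (r - s)) (G.subPt k e j)
      rcases le_total (j - l) (r - j) with h3 | h3
      · have h4 : l + s = j := by rw [hs, min_eq_left h3]; omega
        rw [h4, ind_self]
        linarith
      · have h4 : r - s = j := by rw [hs, min_eq_right h3]; omega
        rw [h4, ind_self]
        linarith

end Q102.QB
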