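import Pool.Agent.Q122.QB.Stm

set_option autoImplicit false

namespace Q102.QB

open Q122.Gon Q122.QB

/-- every effective divisor of degree `r` on `V` can be subtracted -/
def PV {V E : Type} [Fintype V] [Fintype E] [DecidableEq V] [DecidableEq E] (G : MGraph V E)
    (k r : ℕ) (A : V ⊕ E × Fin (k - 1) → ℤ) : Prop :=
  ∀ E' : V → ℤ, (∀ v, 0 ≤ E' v) → ∑ v, E' v = (r : ℤ) →
    ∃ g : V ⊕ E × Fin (k - 1) → ℤ, ∀ w, 0 ≤ A w - ext E k E' w + (G.subdiv k).fire g w

theorem pv_rank (rd : Q122.QB.S_RD) {V E : Type} [Fintype V] [Fintype E] [DecidableEq V]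
    [DecidableEq E] (G : MGraph V E) {k : ℕ} (hG : G.Connected) (hk : 1 ≤ k) (r : ℕ) :
    ∀ A : V ⊕ E × Fin (k - 1) → ℤ, PV G k r A → (G.subdiv k).RankGe r A := by
  induction r with
  | zero =>
    intro A hP E'' h0 hs
    have h1 := MGraph.split_zero E'' h0 hs
    obtain ⟨g, hg⟩ := hP (fun _ => 0) (fun _ => le_rfl) (by simp)
    refine ⟨fun w => (A w - E'' w) + (G.subdiv k).fire g w, ⟨g, fun _ => rfl⟩, fun w => ?_⟩
    have h2 := hg w
    have h3 : ext E k (fun _ : V => (0 : ℤ)) w = 0 := by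
      rcases w with v | q <;> rfl
    rw [h3] at h2
    simp only [h1 w]
    linarith
  | succ n ih =>
    intro A hP E'' h0 hs
    obtain ⟨p, E1, h1, h2, h3⟩ := MGraph.split_one n E'' h0 (by rw [hs]; push_cast; ring)
    have hcov : ∀ v : V, ∃ g : V ⊕ E × Fin (k - 1) → ℤ,
        (∀ w, 0 ≤ (A w - E1 w) + (G.subdiv k).fire g w) ∧
        1 ≤ (A (Sum.inl v) - E1 (Sum.inl v)) + (G.subdiv k).fire g (Sum.inl v) := by
      intro v
      have hPv : PV G k n (fun w => A w - if w = Sum.inl v then 1 else 0) := by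
        intro E' hE' hsE'
        obtain ⟨g, hg⟩ := hP (fun w => E' w + if w = v then 1 else 0)
          (fun w => by have := hE' w; split_ifs <;> linarith) (by
            rw [Finset.sum_add_distrib, hsE']
            simp)
        refine ⟨g, fun w => ?_⟩
        have h4 := hg w
        rcases w with u | q
        · simp only [ext, Sum.elim_inl, Sum.inl.injEq] at h4 ⊢
          linarith
        · simp only [ext, Sum.elim_inr, reduceCtorEq, if_false] at h4 ⊢
          linarith
      obtain ⟨D', ⟨g, hg⟩, hD'⟩ := ih _ hPv E1 h2 h3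
      refine ⟨g, fun w => ?_, ?_⟩
      · have h4 := hg w
        have h5 := hD' w
        rw [h4] at h5
        simp only at h5
        split_ifs at h5 <;> linarith
      · have h4 := hg (Sum.inl v)
        have h5 := hD' (Sum.inl v)
        rw [h4] at h5
        simp only [if_true] at h5
        linarith
    obtain ⟨g, hg1, hg2⟩ := rd V E G k hG hk (fun w => A w - E1 w) hcov p
    refine ⟨fun w => (A w - E'' w) + (G.subdiv k).fire g w, ⟨g, fun _ => rfl⟩, fun w => ?_⟩
    show 0 ≤ (A w - E'' w) + (G.subdiv k).fire g w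
    rw [h1 w]
    by_cases hw : w = p
    · rw [if_pos hw, hw]
      linarith
    · rw [if_neg hw]
      have := hg1 w
      linarith

theorem t_RK (ip : Q122.QB.S_IP) (rd : Q122.QB.S_RD) : Q122.QB.S_RK := by
  intro V E _ _ _ _ G k hG hk r D hD
  apply pv_rank rd G hG hk r
  intro E' h0 hs
  obtain ⟨D', ⟨f, hf⟩, hD'⟩ := hD E' h0 hs
  obtain ⟨g, hg1, hg2⟩ := ip V E G k hk f
  refine ⟨g, fun w => ?_⟩
  rcases w with v | q
  · rw [hg1]
    have h1 := hf v
    have h2 := hD' v
    rw [h1] at h2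
    simpa [ext] using h2
  · rw [hg2]
    simp [ext]

end Q102.QB
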